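import Pool.Agent.W770.KP.Stm

set_option autoImplicit false

open scoped Classical

namespace Pool.Agent.W726.KP

open Pool.Agent.W770.KP MvPolynomial

variable {F : Type} [Field F] [Fintype F]

noncomputable def GG {m : ℕ} (Z : Finset (Fin (m+1) → F)) (z : Fin (m+1) → F) : Finset F :=
  Finset.univ.filter (fun t : F => (Fin.cons t (Fin.tail z) : Fin (m+1) → F) ∈ Z)

noncomputable def AA {m : ℕ} (Z : Finset (Fin (m+1) → F)) (T : Finset F) (τ : Fin m → F)
    (z : Fin (m+1) → F) : MvPolynomial (Fin (m+1)) F :=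
  (∏ i : Fin m, ∏ w ∈ (T.image (fun x => τ i + x)).erase (z i.succ), (X i.succ - C w)) *
    ∏ t ∈ (GG Z z).erase (z 0), (X 0 - C t)

omit [Fintype F] in
lemma deg_lin {n : ℕ} (i : Fin n) (w : F) : (X i - C w : MvPolynomial (Fin n) F).totalDegree ≤ 1 := by
  refine le_trans (totalDegree_sub _ _) ?_
  rw [totalDegree_X, totalDegree_C]
  simp

omit [Fintype F] in
lemma deg_prod {n : ℕ} (i : Fin n) (S : Finset F) :
    (∏ w ∈ S, (X i - C w : MvPolynomial (Fin n) F)).totalDegree ≤ S.card := by
  refine le_trans (totalDegree_finsetProd _ _) ?_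
  refine le_trans (Finset.sum_le_card_nsmul _ _ 1 (fun w _ => deg_lin i w)) ?_
  simp

lemma deg_AA {m : ℕ} (Z : Finset (Fin (m+1) → F)) (T : Finset F) (τ : Fin m → F)
    (z : Fin (m+1) → F) (d s : ℕ) (hT : T.card = s) (hz : ∀ i : Fin m, z i.succ - τ i ∈ T)
    (hd : (GG Z z).card ≤ d) (hz0 : z ∈ Z) :
    (AA Z T τ z).totalDegree ≤ m * (s - 1) + (d - 1) := by
  unfold AA
  refine le_trans (totalDegree_mul _ _) ?_
  refine Nat.add_le_add ?_ ?_
  · refine le_trans (totalDegree_finsetProd _ _) ?_
    refine le_trans (Finset.sum_le_card_nsmul _ _ (s - 1) (fun i _ => ?_)) ?_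
    · refine le_trans (deg_prod _ _) ?_
      rw [Finset.card_erase_of_mem]
      · have := Finset.card_image_le (s := T) (f := fun x => τ i + x)
        omega
      · exact Finset.mem_image.2 ⟨_, hz i, by ring⟩
    · simp
  · refine le_trans (deg_prod _ _) ?_
    rw [Finset.card_erase_of_mem]
    · omega
    · unfold GG
      rw [Finset.mem_filter]
      refine ⟨Finset.mem_univ _, ?_⟩
      rw [Fin.cons_self_tail]; exact hz0

lemma eval_self {m : ℕ} (Z : Finset (Fin (m+1) → F)) (T : Finset F) (τ : Fin m → F)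
    (z : Fin (m+1) → F) : eval z (AA Z T τ z) ≠ 0 := by
  unfold AA
  rw [map_mul, map_prod, map_prod]
  refine mul_ne_zero ?_ ?_
  · refine Finset.prod_ne_zero_iff.2 fun i _ => ?_
    rw [map_prod]
    refine Finset.prod_ne_zero_iff.2 fun w hw => ?_
    rw [map_sub, eval_X, eval_C, sub_ne_zero]
    exact (Finset.ne_of_mem_erase hw).symm
  · refine Finset.prod_ne_zero_iff.2 fun w hw => ?_
    rw [map_sub, eval_X, eval_C, sub_ne_zero]
    exact (Finset.ne_of_mem_erase hw).symm

lemma eval_other {m : ℕ} (Z : Finset (Fin (m+1) → F)) (T : Finset F) (τ : Fin m → F)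
    (z z' : Fin (m+1) → F) (hz' : ∀ i : Fin m, z' i.succ - τ i ∈ T) (hZ' : z' ∈ Z)
    (hne : z' ≠ z) : eval z' (AA Z T τ z) = 0 := by
  unfold AA
  rw [map_mul, map_prod, map_prod]
  by_cases hc : ∀ i : Fin m, z' i.succ = z i.succ
  · have h0 : z' 0 ≠ z 0 := by
      intro h0
      apply hne
      funext j
      refine Fin.cases h0 (fun i => hc i) j
    have hm : z' 0 ∈ (GG Z z).erase (z 0) := by
      refine Finset.mem_erase.2 ⟨h0, ?_⟩
      unfold GG
      rw [Finset.mem_filter]
      refine ⟨Finset.mem_univ _, ?_⟩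
      have : (Fin.cons (z' 0) (Fin.tail z) : Fin (m+1) → F) = z' := by
        funext j
        refine Fin.cases ?_ (fun i => ?_) j
        · rfl
        · rw [Fin.cons_succ]; exact (hc i).symm
      rw [this]; exact hZ'
    rw [mul_eq_zero]
    right
    refine Finset.prod_eq_zero hm ?_
    rw [map_sub, eval_X, eval_C, sub_self]
  · push Not at hc
    obtain ⟨i, hi⟩ := hc
    rw [mul_eq_zero]
    left
    refine Finset.prod_eq_zero (Finset.mem_univ i) ?_
    rw [map_prod]
    refine Finset.prod_eq_zero (i := z' i.succ) ?_ ?_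
    · refine Finset.mem_erase.2 ⟨hi, Finset.mem_image.2 ⟨_, hz' i, by ring⟩⟩
    · rw [map_sub, eval_X, eval_C, sub_self]

lemma averaging {m : ℕ} (Z : Finset (Fin (m+1) → F)) (T : Finset F) :
    ∃ τ : Fin m → F, Z.card * T.card ^ m ≤
      (Z.filter (fun z => ∀ i : Fin m, z i.succ - τ i ∈ T)).card * Fintype.card F ^ m := by
  by_contra hcon
  push Not at hcon
  have h1 : ∑ τ : Fin m → F, (Z.filter (fun z => ∀ i : Fin m, z i.succ - τ i ∈ T)).card
      = Z.card * T.card ^ m := by
    have h2 : ∀ τ : Fin m → F, (Z.filter (fun z => ∀ i : Fin m, z i.succ - τ i ∈ T)).card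
        = ∑ z ∈ Z, if (∀ i : Fin m, z i.succ - τ i ∈ T) then 1 else 0 := by
      intro τ
      rw [Finset.card_filter]
    simp_rw [h2]
    rw [Finset.sum_comm]
    have h3 : ∀ z ∈ Z, (∑ τ : Fin m → F, if (∀ i : Fin m, z i.succ - τ i ∈ T) then 1 else 0)
        = T.card ^ m := by
      intro z _
      rw [← Finset.card_filter]
      have h4 : (Fintype.piFinset (fun _ : Fin m => T)).card = T.card ^ m := by
        rw [Fintype.card_piFinset]; simp
      rw [← h4]
      refine Finset.card_bij (fun τ _ => fun i => z i.succ - τ i) ?_ ?_ ?_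
      · intro τ hτ
        rw [Fintype.mem_piFinset]
        exact (Finset.mem_filter.1 hτ).2
      · intro τ _ τ' _ h
        funext i
        have := congrFun h i
        exact sub_right_injective this
      · intro w hw
        refine ⟨fun i => z i.succ - w i, ?_, ?_⟩
        · rw [Finset.mem_filter]
          refine ⟨Finset.mem_univ _, fun i => ?_⟩
          have := (Fintype.mem_piFinset.1 hw) i
          simpa using this
        · funext i; simp
    rw [Finset.sum_congr rfl h3, Finset.sum_const, smul_eq_mul]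
  have h5 : ∑ τ : Fin m → F, (Z.filter (fun z => ∀ i : Fin m, z i.succ - τ i ∈ T)).card *
      Fintype.card F ^ m < ∑ _τ : Fin m → F, Z.card * T.card ^ m := by
    refine Finset.sum_lt_sum_of_nonempty Finset.univ_nonempty (fun τ _ => hcon τ)
  rw [← Finset.sum_mul, h1, Finset.sum_const, Finset.card_univ, Fintype.card_fun, Fintype.card_fin,
    smul_eq_mul, mul_comm] at h5
  exact lt_irrefl _ h5

theorem ils0 : S_ILS0 := by
  intro m F _ _ Z d e hde heq hZ
  rcases Finset.eq_empty_or_nonempty Z with rfl | hne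
  · refine ⟨0, fun i => i.elim0, fun i => i.elim0, by simp, fun c _ => Subsingleton.elim _ _⟩
  have hd1 : 1 ≤ d := by
    obtain ⟨z, hz⟩ := hne
    have h := hZ (Fin.tail z)
    have : 0 < (Finset.univ.filter (fun t : F =>
        (Fin.cons t (Fin.tail z) : Fin (m+1) → F) ∈ Z)).card := by
      refine Finset.card_pos.2 ⟨z 0, ?_⟩
      rw [Finset.mem_filter]
      refine ⟨Finset.mem_univ _, ?_⟩
      rw [Fin.cons_self_tail]; exact hz
    omega
  set s : ℕ := (e - d) / m + 1 with hs
  have hsq : s ≤ Fintype.card F := by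
    have := Nat.div_le_self (e - d) m
    omega
  obtain ⟨T, -, hT⟩ := Finset.exists_subset_card_eq (s := (Finset.univ : Finset F))
    (n := s) (by rw [Finset.card_univ]; exact hsq)
  obtain ⟨τ, hτ⟩ := averaging Z T
  rw [hT] at hτ
  set Z' := Z.filter (fun z => ∀ i : Fin m, z i.succ - τ i ∈ T) with hZ'
  have hm1 : m * (s - 1) ≤ e - d := by
    have : s - 1 = (e - d) / m := by rw [hs]; exact Nat.add_sub_cancel _ _
    rw [this]; exact Nat.mul_div_le _ _
  refine ⟨Z'.card, fun j => AA Z T τ (Z'.equivFin.symm j).1, ?_, ?_, ?_⟩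
  · intro j
    have hj := Finset.mem_filter.1 (Z'.equivFin.symm j).2
    refine le_trans (deg_AA Z T τ _ d s hT hj.2 (hZ _) hj.1) ?_
    omega
  · have hq : (0:ℝ) < Fintype.card F := by exact_mod_cast Fintype.card_pos
    have hτ' : (Z.card : ℝ) * (s : ℝ) ^ m ≤ (Z'.card : ℝ) * (Fintype.card F : ℝ) ^ m := by
      exact_mod_cast hτ
    have h1 : (Z.card : ℝ) * ((s : ℝ) / Fintype.card F) ^ m ≤ Z'.card := by
      rw [div_pow, ← mul_div_assoc, div_le_iff₀ (by positivity)]
      exact hτ'
    refine le_trans ?_ h1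
    refine mul_le_mul_of_nonneg_left ?_ (Nat.cast_nonneg _)
    rcases Nat.eq_zero_or_pos m with rfl | hm
    · simp
    · refine pow_le_pow_left₀ (by positivity) ?_ m
      have h2 : e ≤ 2 * ((m + 1) * s) := by
        have h3 : e - d < m * s := by
          have := Nat.lt_mul_div_succ (e - d) hm
          exact this
        have h5 : (m + 1) * s = m * s + s := by ring
        rw [h5]
        generalize m * s = k at h3
        omega
      have h4 : (e : ℝ) ≤ 2 * (((m : ℝ) + 1) * s) := by exact_mod_cast h2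
      rw [div_le_div_iff₀ (by positivity) hq]
      nlinarith
  · intro c hc
    funext j
    have hj := Finset.mem_filter.1 (Z'.equivFin.symm j).2
    have h1 := hc _ hj.1
    unfold lc at h1
    rw [map_sum, Finset.sum_eq_single j] at h1
    · rw [map_mul, eval_C] at h1
      rcases mul_eq_zero.1 h1 with h2 | h2
      · exact h2
      · exact absurd h2 (eval_self _ _ _ _)
    · intro k _ hk
      rw [map_mul, eval_other Z T τ _ _ hj.2 hj.1, mul_zero]
      intro h2
      apply hk
      have h3 := Subtype.ext h2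
      exact (Z'.equivFin.symm.injective h3).symm
    · intro h2; exact absurd (Finset.mem_univ j) h2

end Pool.Agent.W726.KP
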